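import Pool.Agent.H716Q.All

set_option autoImplicit false

open MeasureTheory

namespace Pool.Agent.Results.MP_9736d0_an.BallLogAsymptotics

/-- `Q (r₁, …, rₙ) = ∏_{k < j} |r_j - r_k|²` for points of `ℝ³`. -/
noncomputable def Q {n : ℕ} (r : Fin n → EuclideanSpace ℝ (Fin 3)) : ℝ :=
  ∏ k : Fin n, ∏ j ∈ Finset.Ioi k, ‖r j - r k‖ ^ 2

/-- `F₂(n, 2)`: the integral of `Q` over `n` points of the unit sphere of `ℝ³`, with respect to the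
unnormalised surface measure. -/
noncomputable def F2 (n : ℕ) : ℝ :=
  ∫ w : Fin n → Metric.sphere (0 : EuclideanSpace ℝ (Fin 3)) 1,
    Q (fun i => (w i : EuclideanSpace ℝ (Fin 3)))
    ∂(Measure.pi fun _ => (volume : Measure (EuclideanSpace ℝ (Fin 3))).toSphere)

/-- `F₃(n, 3)`: the integral of `Q` over `n` points of the closed unit ball of `ℝ³`. -/
noncomputable def F3 (n : ℕ) : ℝ :=
  ∫ r in {r : Fin n → EuclideanSpace ℝ (Fin 3) | ∀ i, ‖r i‖ ≤ 1}, Q r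

/-- For all `n ≥ 2`: `(n + 2)^{-n} F₂(n, 2) ≤ F₃(n, 3) ≤ n^1300 (n + 2)^{-n} F₂(n, 2)`; consequently
`log F₃(n, 3) = (log 2 - 1/2) n² - (1/2) n log n + ((3/2) log (2π) - 1) n + O(log n)`. -/
theorem result :
    (∀ n : ℕ, 2 ≤ n → (((n : ℝ) + 2) ^ n)⁻¹ * F2 n ≤ F3 n ∧
      F3 n ≤ (n : ℝ) ^ 1300 * ((((n : ℝ) + 2) ^ n)⁻¹ * F2 n)) ∧
    (∃ C : ℝ, ∀ n : ℕ, 2 ≤ n →
      |Real.log (F3 n) - ((Real.log 2 - 1 / 2) * (n : ℝ) ^ 2 - 1 / 2 * n * Real.log n +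
        (3 / 2 * Real.log (2 * Real.pi) - 1) * n)| ≤ C * Real.log n) := by
  have hlow : ∀ n : ℕ, (((n : ℝ) + 2) ^ n)⁻¹ * F2 n ≤ F3 n := fun n => (SqDist.main n).1
  have hup : ∀ n : ℕ, 2 ≤ n → F3 n ≤ (n : ℝ) ^ 1300 * ((((n : ℝ) + 2) ^ n)⁻¹ * F2 n) :=
    fun n hn => H716Q.fin_upper H716Q.a13 H716Q.a16 n hn
  have hcl : ∀ n : ℕ, 1 ≤ n → F2 n = 2 ^ (n * (n + 1)) * Real.pi ^ n
        * (∏ k ∈ Finset.range n, (k.factorial : ℝ) ^ 2) / (n.factorial : ℝ) ^ (n - 1) :=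
    fun n hn => SqDist.F2_closed n hn
  exact ⟨fun n hn => ⟨hlow n, hup n hn⟩, H716Q.fin_log F2 F3 hlow hup hcl H716Q.s17⟩

end Pool.Agent.Results.MP_9736d0_an.BallLogAsymptotics
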